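import Pool.Agent.Q163.CM.Core4
import Pool.Agent.Q163.CM.Discs

/-!
# The chordal Mergelyan property for discs accumulating at a point

For pairwise disjoint closed discs `D n` converging to a point `P` and `L = {P} ∪ ⋃ n, D n`, the
`χ`-uniform limits on `L` of sequences of polynomials are exactly the members of `𝓕(L)`.
-/

namespace Pool.Agent.Results.MP_1b82cc_an.DiscsAtAPoint

open scoped OnePoint Polynomial
open Pool.Agent.Q163.CM Metric

/-- The maps `L → Ĉ` that are `χ`-uniform limits on `L` of sequences of polynomials; `chi` is the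
chordal metric on `ℂ ∪ {∞}`. -/
def polynomialLimits (L : Set ℂ) : Set (L → OnePoint ℂ) :=
  {f | ∃ p : ℕ → ℂ[X], ∀ ε > 0, ∃ N, ∀ n ≥ N, ∀ z : L,
    chi (((p n).eval (z : ℂ) : ℂ) : OnePoint ℂ) (f z) < ε}

/-- The class `𝓕(L)`: continuous `f : L → Ĉ` such that on every component `V` of the interior of
`L` either `f ≡ ∞`, or `f` is finite and holomorphic. -/
def classF (L : Set ℂ) : Set (L → OnePoint ℂ) :=
  {f | Continuous f ∧ ∀ z ∈ interior L,
    (∀ w : L, (w : ℂ) ∈ connectedComponentIn (interior L) z → f w = ∞) ∨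
    (∃ g : ℂ → ℂ, DifferentiableOn ℂ g (connectedComponentIn (interior L) z) ∧
      ∀ w : L, (w : ℂ) ∈ connectedComponentIn (interior L) z → f w = ((g w : ℂ) : OnePoint ℂ))}

/-- The set `{P} ∪ ⋃ n, D n` with `D n` the closed disc of centre `c n` and radius `r n`. -/
def discSet (c : ℕ → ℂ) (r : ℕ → ℝ) (P : ℂ) : Set ℂ := {P} ∪ ⋃ n, closedBall (c n) (r n)

theorem general (L : Set ℂ) (hL : IsCompact L) (hLc : IsConnected Lᶜ) :
    polynomialLimits L = classF L := by
  classical
  ext f
  set F : ℂ → OnePoint ℂ := fun z => if h : z ∈ L then f ⟨z, h⟩ else ∞ with hF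
  have hFf : ∀ w : L, F w = f w := by
    intro w
    rw [hF]
    simp only
    rw [dif_pos w.2]
  have h1 : f ∈ polynomialLimits L ↔
      (∃ P : ℕ → ℂ[X], ∀ ε > 0, ∃ N, ∀ n ≥ N, ∀ z ∈ L, chi ((P n).eval z : ℂ) (F z) < ε) := by
    constructor
    · rintro ⟨P, hP⟩
      refine ⟨P, fun ε hε => ?_⟩
      obtain ⟨N, hN⟩ := hP ε hε
      refine ⟨N, fun n hn z hz => ?_⟩
      have := hN n hn ⟨z, hz⟩
      rw [← hFf] at this
      exact this
    · rintro ⟨P, hP⟩
      refine ⟨P, fun ε hε => ?_⟩
      obtain ⟨N, hN⟩ := hP ε hε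
      refine ⟨N, fun n hn z => ?_⟩
      have := hN n hn z z.2
      rw [hFf] at this
      exact this
  have h2 : f ∈ classF L ↔ InM L F := by
    have hc : Continuous f ↔ ContinuousOn F L := by
      rw [continuousOn_iff_continuous_domRestrict]
      have : L.domRestrict F = f := by
        funext w
        exact hFf w
      rw [this]
    constructor
    · rintro ⟨hfc, hf⟩
      refine ⟨hc.1 hfc, fun z hz => ?_⟩
      have hsub : connectedComponentIn (interior L) z ⊆ L :=
        (connectedComponentIn_subset _ _).trans interior_subset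
      rcases hf z hz with h | ⟨g, hg, h⟩
      · exact Or.inl fun w hw => by
          have := h ⟨w, hsub hw⟩ hw
          rw [← hFf] at this
          exact this
      · exact Or.inr ⟨g, hg, fun w hw => by
          have := h ⟨w, hsub hw⟩ hw
          rw [← hFf] at this
          exact this⟩
    · rintro ⟨hfc, hf⟩
      refine ⟨hc.2 hfc, fun z hz => ?_⟩
      rcases hf z hz with h | ⟨g, hg, h⟩
      · exact Or.inl fun w hw => by
          rw [← hFf]
          exact h w hw
      · exact Or.inr ⟨g, hg, fun w hw => by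
          rw [← hFf]
          exact h w hw⟩
  rw [h1, h2]
  exact main hL hLc

/-- The chordal Mergelyan property holds for all pairwise disjoint closed discs of positive radius
converging to a point. -/
theorem result (c : ℕ → ℂ) (r : ℕ → ℝ) (P : ℂ) (hr : ∀ n, 0 < r n)
    (hd : Pairwise fun m n => Disjoint (closedBall (c m) (r m)) (closedBall (c n) (r n)))
    (hP : ∀ ε > 0, ∃ N, ∀ n ≥ N, ∀ z ∈ closedBall (c n) (r n), ‖z - P‖ < ε) :
    IsCompact (discSet c r P) ∧ IsConnected (discSet c r P)ᶜ ∧
      polynomialLimits (discSet c r P) = classF (discSet c r P) := by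
  have hP' : ∀ ε > 0, ∃ N, ∀ n ≥ N, closedBall (c n) (r n) ⊆ ball P ε := by
    intro ε hε
    obtain ⟨N, hN⟩ := hP ε hε
    refine ⟨N, fun n hn z hz => ?_⟩
    rw [mem_ball, dist_eq_norm]
    exact hN n hn z hz
  have h1 : IsCompact (discSet c r P) := discs_compact c r P hP'
  have h2 : IsConnected (discSet c r P)ᶜ := discs_conn c r P hr hd hP'
  exact ⟨h1, h2, general _ h1 h2⟩

end Pool.Agent.Results.MP_1b82cc_an.DiscsAtAPoint
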